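import Mathlib

/-!
# WR-A2: random shifts sigma

Chernoff bound by `A ^ count` over all functions `σ : ι → [0, S)` and a union bound.
-/

set_option autoImplicit false

namespace Pool.Agent.Helper82.WR

open Finset

/-- The moment generating function of the number of indices `i` with `σ i ∈ B i`. -/
theorem wra2_mgf {ι : Type} [Fintype ι] [DecidableEq ι] (S : ℕ) (B : ι → Finset ℕ)
    (hB : ∀ i, B i ⊆ range S) (A : ℝ) :
    ∑ σ ∈ Fintype.piFinset (fun _ : ι => range S),
        A ^ (univ.filter (fun i => σ i ∈ B i)).card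
      = ∏ i, ((S : ℝ) + (A - 1) * ((B i).card : ℝ)) := by
  have h1 : ∀ σ : ι → ℕ, A ^ (univ.filter (fun i => σ i ∈ B i)).card
      = ∏ i, (if σ i ∈ B i then A else 1) := by
    intro σ
    rw [Finset.prod_ite, Finset.prod_const, Finset.prod_const_one, mul_one]
  simp_rw [h1]
  refine (Finset.prod_univ_sum (fun _ : ι => range S)
    (fun i x => if x ∈ B i then A else (1 : ℝ))).symm.trans ?_
  refine Finset.prod_congr rfl (fun i _ => ?_)
  rw [Finset.sum_ite, Finset.sum_const, Finset.sum_const, nsmul_eq_mul, nsmul_eq_mul, mul_one]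
  have h2 : (range S).filter (fun x => x ∈ B i) = B i := by
    ext x
    simp only [mem_filter]
    exact ⟨fun h => h.2, fun h => ⟨hB i h, h⟩⟩
  have h3 : ((range S).filter (fun x => x ∈ B i)).card
      + ((range S).filter (fun x => ¬ x ∈ B i)).card = S := by
    rw [Finset.card_filter_add_card_filter_not, card_range]
  rw [h2] at h3 ⊢
  have h4 : (((B i).card : ℝ) + (((range S).filter (fun x => ¬ x ∈ B i)).card : ℝ)) = S := by
    exact_mod_cast h3
  rw [← h4]
  ring

/-- WR-A2 (random shifts σ). -/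
theorem sigma_exists {ι : Type} [Fintype ι] [DecidableEq ι] (S : ℕ) (hS : 0 < S)
    {J : Type} (s : Finset J) (B : J → ι → Finset ℕ) (hB : ∀ j ∈ s, ∀ i, B j i ⊆ range S)
    (μ A : J → ℝ) (y : J → ℕ) (hA : ∀ j ∈ s, 1 ≤ A j)
    (hμ : ∀ j ∈ s, ∑ i, ((B j i).card : ℝ) ≤ μ j * S)
    (hsum : ∑ j ∈ s, Real.exp (A j * μ j) / A j ^ y j < 1) :
    ∃ σ : ι → ℕ, (∀ i, σ i < S) ∧
      ∀ j ∈ s, (univ.filter (fun i => σ i ∈ B j i)).card < y j := by
  classical
  have hS' : (0 : ℝ) < S := by exact_mod_cast hS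
  have hΩ : ((Fintype.piFinset (fun _ : ι => range S)).card : ℝ)
      = (S : ℝ) ^ (Fintype.card ι) := by
    rw [Fintype.card_piFinset]
    simp
  -- the number of bad functions for `j`
  have hbad : ∀ j ∈ s, (((Fintype.piFinset (fun _ : ι => range S)).filter
      (fun σ => y j ≤ (univ.filter (fun i => σ i ∈ B j i)).card)).card : ℝ)
        ≤ (S : ℝ) ^ (Fintype.card ι) * (Real.exp (A j * μ j) / A j ^ y j) := by
    intro j hj
    have hAj := hA j hj
    have hApos : (0 : ℝ) < A j := lt_of_lt_of_le one_pos hAj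
    have hpow : (0 : ℝ) < A j ^ y j := pow_pos hApos _
    rw [← mul_div_assoc, le_div_iff₀ hpow]
    have h1 : (((Fintype.piFinset (fun _ : ι => range S)).filter
        (fun σ => y j ≤ (univ.filter (fun i => σ i ∈ B j i)).card)).card : ℝ) * A j ^ y j
        ≤ ∑ σ ∈ (Fintype.piFinset (fun _ : ι => range S)).filter
        (fun σ => y j ≤ (univ.filter (fun i => σ i ∈ B j i)).card),
          A j ^ (univ.filter (fun i => σ i ∈ B j i)).card := by
      rw [← nsmul_eq_mul]
      refine Finset.card_nsmul_le_sum _ _ _ (fun σ hσ => ?_)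
      exact pow_le_pow_right₀ hAj (mem_filter.mp hσ).2
    have h2 : ∑ σ ∈ (Fintype.piFinset (fun _ : ι => range S)).filter
        (fun σ => y j ≤ (univ.filter (fun i => σ i ∈ B j i)).card),
          A j ^ (univ.filter (fun i => σ i ∈ B j i)).card
        ≤ ∑ σ ∈ Fintype.piFinset (fun _ : ι => range S),
          A j ^ (univ.filter (fun i => σ i ∈ B j i)).card :=
      Finset.sum_le_sum_of_subset_of_nonneg (filter_subset _ _)
        (fun σ _ _ => pow_nonneg hApos.le _)
    refine h1.trans (h2.trans ?_)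
    rw [wra2_mgf S (B j) (hB j hj) (A j)]
    have h3 : ∏ i, ((S : ℝ) + (A j - 1) * ((B j i).card : ℝ))
        ≤ ∏ i, ((S : ℝ) * Real.exp ((A j - 1) * ((B j i).card : ℝ) / S)) := by
      refine Finset.prod_le_prod (fun i _ => ?_) (fun i _ => ?_)
      · have : (0 : ℝ) ≤ (A j - 1) * ((B j i).card : ℝ) :=
          mul_nonneg (by linarith) (Nat.cast_nonneg _)
        linarith
      · have h4 := Real.add_one_le_exp ((A j - 1) * ((B j i).card : ℝ) / S)
        have h5 : (S : ℝ) + (A j - 1) * ((B j i).card : ℝ)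
            = S * ((A j - 1) * ((B j i).card : ℝ) / S + 1) := by
          field_simp
          ring
        rw [h5]
        exact mul_le_mul_of_nonneg_left h4 hS'.le
    refine h3.trans ?_
    rw [Finset.prod_mul_distrib, Finset.prod_const, ← Real.exp_sum, Finset.card_univ]
    refine mul_le_mul_of_nonneg_left (Real.exp_le_exp.mpr ?_) (pow_nonneg hS'.le _)
    have h6 : ∑ i, (A j - 1) * ((B j i).card : ℝ) / S
        = (A j - 1) * (∑ i, ((B j i).card : ℝ)) / S := by
      rw [Finset.mul_sum, Finset.sum_div]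
    rw [h6, div_le_iff₀ hS']
    have h7 : (0 : ℝ) ≤ ∑ i, ((B j i).card : ℝ) :=
      Finset.sum_nonneg (fun i _ => Nat.cast_nonneg _)
    have h8 := hμ j hj
    calc (A j - 1) * (∑ i, ((B j i).card : ℝ)) ≤ A j * (∑ i, ((B j i).card : ℝ)) :=
          mul_le_mul_of_nonneg_right (by linarith) h7
      _ ≤ A j * (μ j * S) := mul_le_mul_of_nonneg_left h8 hApos.le
      _ = A j * μ j * S := by ring
  -- union bound
  by_contra hcon
  push Not at hcon
  have hcov : Fintype.piFinset (fun _ : ι => range S) ⊆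
      s.biUnion (fun j => (Fintype.piFinset (fun _ : ι => range S)).filter
        (fun σ => y j ≤ (univ.filter (fun i => σ i ∈ B j i)).card)) := by
    intro σ hσ
    obtain ⟨j, hj, hle⟩ := hcon σ (fun i => mem_range.mp (Fintype.mem_piFinset.mp hσ i))
    exact mem_biUnion.mpr ⟨j, hj, mem_filter.mpr ⟨hσ, hle⟩⟩
  have hcard : ((Fintype.piFinset (fun _ : ι => range S)).card : ℝ)
      ≤ ∑ j ∈ s, (S : ℝ) ^ (Fintype.card ι) * (Real.exp (A j * μ j) / A j ^ y j) := by
    refine le_trans ?_ (Finset.sum_le_sum hbad)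
    have := (Finset.card_le_card hcov).trans Finset.card_biUnion_le
    exact_mod_cast this
  rw [← Finset.mul_sum, hΩ] at hcard
  have hpos : (0 : ℝ) < (S : ℝ) ^ (Fintype.card ι) := pow_pos hS' _
  have : (S : ℝ) ^ (Fintype.card ι) * ∑ j ∈ s, Real.exp (A j * μ j) / A j ^ y j
      < (S : ℝ) ^ (Fintype.card ι) * 1 := mul_lt_mul_of_pos_left hsum hpos
  linarith

end Pool.Agent.Helper82.WR
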